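import Pool.Agent.H679Z.Terms

set_option autoImplicit false

namespace Pool.Agent.H679Z

open Filter

variable {U : Ultrafilter ℕ}

/-- An operator on sets with finite use. -/
def OpenOp (S : Set ℕ → Set ℕ) : Prop :=
  ∀ H m, m ∈ S H → ∃ N, ∀ H' : Set ℕ, (∀ i < N, (i ∈ H' ↔ i ∈ H)) → m ∈ S H'

/-- Some new term is forced to have a value in `S`. -/
def GoodAt (U : Ultrafilter ℕ) (S : Set ℕ → Set ℕ) (D : Set Tm) (n0 n : ℕ) (G : Finset ℕ) : Prop :=
  ∃ β, Red U β ∧ (∀ δ ∈ D, ∀ s, Reach δ (↑G) n0 s → ¬ Eqv U β s) ∧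
    Forces U n G fun H => ∃ m ∈ val β H n, m ∈ S H

theorem good_glue (hU : ∀ N, ∀ᶠ y in (U : Filter ℕ), N ≤ y) {S : Set ℕ → Set ℕ} {D : Set Tm}
    {n0 n : ℕ} {G : Finset ℕ}
    (h : ∀ᶠ y in (U : Filter ℕ), GoodAt U S D n0 (y + 1) (insert y G)) : GoodAt U S D n0 n G := by
  classical
  have h1 : ∀ y, ∃ β, Red U β ∧ (GoodAt U S D n0 (y + 1) (insert y G) →
      (∀ δ ∈ D, ∀ s, Reach δ (↑(insert y G)) n0 s → ¬ Eqv U β s) ∧
      Forces U (y + 1) (insert y G) fun H => ∃ m ∈ val β H (y + 1), m ∈ S H) := by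
    intro y
    by_cases hy : GoodAt U S D n0 (y + 1) (insert y G)
    · obtain ⟨β, a, b, c⟩ := hy
      exact ⟨β, a, fun _ => ⟨b, c⟩⟩
    · exact ⟨.leaf 0, trivial, fun h' => absurd h' hy⟩
  choose β hβ1 hβ2 using h1
  have hsub : ∀ y, (↑G : Set ℕ) ⊆ ↑(insert y G) := fun y => by
    rw [Finset.coe_insert]
    exact Set.subset_insert _ _
  by_cases hdiv : ∀ s, ∀ᶠ x in (U : Filter ℕ), ¬ Eqv U (β x) s
  · refine ⟨.node β, ⟨hβ1, hdiv⟩, fun δ hδ s hs he => ?_, ?_⟩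
    · cases s with
      | leaf m => exact he.elim
      | node g =>
        have he' : ∀ᶠ x in (U : Filter ℕ), Eqv U (β x) (g x) := he
        obtain ⟨y, ⟨⟨hy1, hy2⟩, hy3⟩, hy4⟩ :=
          (((he'.and h).and (hU n0)).and (hU (G.sup id + 1))).exists
        refine (hβ2 y hy2).1 δ hδ (g y) ?_ hy1
        rw [Finset.coe_insert]
        refine Reach.ext (fun x hx => ?_) hy3 hs
        have : x ≤ G.sup id := Finset.le_sup (f := id) hx
        omega
    · have h2 := Forces.glue (U := U) (n := n) (G := G)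
        (O := fun y H => ∃ m ∈ val (β y) H (y + 1), m ∈ S H) (h.mono fun y hy => (hβ2 y hy).2)
      refine h2.mono fun H _ _ hH => ?_
      obtain ⟨y, hy, hn, m, hm, hS⟩ := hH
      exact ⟨m, mem_val_node.2 ⟨y, hy, hn, hm⟩, hS⟩
  · obtain ⟨s0, hs0⟩ := not_forall.1 hdiv
    have h2 : ∀ᶠ x in (U : Filter ℕ), Eqv U (β x) s0 := by
      have := Ultrafilter.eventually_not.not.1 hs0
      simpa using this
    obtain ⟨y0, hy1, hy2⟩ := (h2.and h).exists
    refine ⟨β y0, hβ1 y0, fun δ hδ s hs => (hβ2 y0 hy2).1 δ hδ s (hs.mono (hsub y0) le_rfl), ?_⟩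
    have h3 := Forces.glue (U := U) (n := n) (G := G)
      (O := fun y H => ∃ m ∈ val (β y0) H (y + 1), m ∈ S H) (by
        filter_upwards [h2, h] with y ha hb
        refine ((hβ2 y hb).2.and (eqv_val (ha.trans hy1.symm) _ _)).mono fun H _ _ hH => ?_
        obtain ⟨⟨m, hm, hS⟩, hsub⟩ := hH
        exact ⟨m, hsub hm, hS⟩)
    refine h3.mono fun H _ _ hH => ?_
    obtain ⟨y, _, hn, m, hm, hS⟩ := hH
    exact ⟨m, val_mono subset_rfl (by omega) hm, hS⟩

theorem dich (hU : ∀ N, ∀ᶠ y in (U : Filter ℕ), N ≤ y) {S : Set ℕ → Set ℕ} (hS : OpenOp S)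
    (D : Set Tm) (n0 : ℕ) (F : Finset ℕ) :
    GoodAt U S D n0 n0 F ∨ Forces U n0 F fun H => ∀ m ∈ S H, ∃ δ ∈ D, m ∈ val δ H n0 := by
  classical
  by_cases hG : GoodAt U S D n0 n0 F
  · exact Or.inl hG
  right
  let P : Finset ℕ → Prop := fun G => ∀ᶠ y in (U : Filter ℕ), ¬ GoodAt U S D n0 (y + 1) (insert y G)
  have hP : ∀ n G, ¬ GoodAt U S D n0 n G → P G := fun n G h =>
    Ultrafilter.eventually_not.2 fun h' => h (good_glue hU h')
  refine ⟨fun G => {y | P G → ¬ GoodAt U S D n0 (y + 1) (insert y G)}, fun G => ?_, ?_⟩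
  · by_cases h : P G
    · exact h.mono fun y hy _ => hy
    · exact Eventually.of_forall (f := (U : Filter ℕ)) fun y h' => absurd h' h
  intro H hH hF hfol m hm
  have h1 : ∀ k, P (stem H (n0 + k)) := by
    intro k
    induction k with
    | zero => exact hP n0 _ (by rw [Nat.add_zero, hF]; exact hG)
    | succ k ih =>
      by_cases hk : n0 + k ∈ H
      · have := hfol _ hk (Nat.le_add_right _ _) ih
        rw [← stem_succ_mem hk] at this
        exact hP _ _ this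
      · rw [← add_assoc, stem_succ_not_mem hk]
        exact ih
  obtain ⟨N, hN⟩ := hS H m hm
  obtain ⟨y, hy, hy2⟩ := hH.exists_gt (N + n0)
  have h2 := h1 (y - n0)
  rw [show n0 + (y - n0) = y by omega] at h2
  have h3 := hfol y hy (by omega) h2
  rw [← stem_succ_mem hy] at h3
  by_contra hc
  refine h3 ⟨.leaf m, trivial, fun δ hδ s hs he => hc ⟨δ, hδ, ?_⟩, ?_⟩
  · rw [eqv_leaf he] at hs
    exact Reach.mono (fun x hx => (mem_stem.1 hx).2) le_rfl hs
  · refine Forces.of_forall fun H' _ hH' => ⟨m, mem_val_leaf.2 rfl, hN H' fun i hi => ?_⟩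
    exact stem_agree hH' i (by omega)

theorem dich2 (hU : ∀ N, ∀ᶠ y in (U : Filter ℕ), N ≤ y) {S : Set ℕ → Set ℕ} (hS : OpenOp S)
    {D : Set Tm} (hD : D.Finite) (hR : ∀ δ ∈ D, Red U δ) (n : ℕ) (F : Finset ℕ) :
    (∃ β, Red U β ∧ (∀ δ ∈ D, ¬ Eqv U β δ) ∧ Forces U n F fun H => ∃ m ∈ val β H n, m ∈ S H) ∨
      Forces U n F fun H => ∀ p, Idem p → S H ∉ p := by
  rcases dich hU hS D n F with ⟨β, h1, h2, h3⟩ | h
  · exact Or.inl ⟨β, h1, fun δ hδ => h2 δ hδ δ (Reach.refl _ _ _), h3⟩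
  · right
    have h1 := Forces.finite (U := U) (n := n) (G := F) hD fun δ hδ => ip_free δ (hR δ hδ) n F
    refine (h.and h1).mono fun H _ _ hH p hp hSp => ?_
    have h2 : (⋃ δ ∈ D, val δ H n) ∈ p := mem_of_superset hSp fun m hm => by
      obtain ⟨δ, hδ, hm⟩ := hH.1 m hm
      exact Set.mem_biUnion hδ hm
    obtain ⟨δ, hδ, h3⟩ := (Ultrafilter.finite_biUnion_mem_iff hD).1 h2
    refine hH.2 δ hδ p hp 0 ?_
    simpa using h3

/-- A finite consistent assignment of colours to reduced terms. -/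
def Okay (U : Ultrafilter ℕ) (D : Set (Tm × Bool)) : Prop :=
  D.Finite ∧ (∀ q ∈ D, Red U q.1) ∧ ∀ q ∈ D, ∀ q' ∈ D, Eqv U q.1 q'.1 → q.2 = q'.2

theorem Okay.insert {D : Set (Tm × Bool)} (hD : Okay U D) {β : Tm} (hβ : Red U β)
    (hne : ∀ q ∈ D, ¬ Eqv U β q.1) (b : Bool) : Okay U (insert (β, b) D) := by
  refine ⟨hD.1.insert _, ?_, ?_⟩
  · rintro q (rfl | hq)
    · exact hβ
    · exact hD.2.1 q hq
  · rintro q (rfl | hq) q' (rfl | hq') he
    · rfl
    · exact absurd he (hne q' hq')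
    · exact absurd he.symm (hne q hq)
    · exact hD.2.2 q hq q' hq' he

/-- The requirement for the operator `S` is met. -/
def Sat (D : Set (Tm × Bool)) (n : ℕ) (S : Set ℕ → Set ℕ) (H : Set ℕ) : Prop :=
  (∀ p, Idem p → S H ∉ p) ∨ ∃ β β', (β, false) ∈ D ∧ (β', true) ∈ D ∧
    (∃ m ∈ val β H n, m ∈ S H) ∧ ∃ m ∈ val β' H n, m ∈ S H

theorem Sat.mono {D D' : Set (Tm × Bool)} (h : D ⊆ D') {n : ℕ} {S : Set ℕ → Set ℕ} {H : Set ℕ}
    (hs : Sat D n S H) : Sat D' n S H := by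
  rcases hs with hs | ⟨β, β', h1, h2, h3⟩
  · exact Or.inl hs
  · exact Or.inr ⟨β, β', h h1, h h2, h3⟩

theorem req_one (hU : ∀ N, ∀ᶠ y in (U : Filter ℕ), N ≤ y) {S : Set ℕ → Set ℕ} (hS : OpenOp S)
    {D : Set (Tm × Bool)} (hD : Okay U D) (n : ℕ) (F : Finset ℕ) :
    ∃ D', D ⊆ D' ∧ Okay U D' ∧ Forces U n F (Sat D' n S) := by
  have key : ∀ {E : Set (Tm × Bool)}, Okay U E →
      (∃ β, Red U β ∧ (∀ q ∈ E, ¬ Eqv U β q.1) ∧ Forces U n F fun H => ∃ m ∈ val β H n, m ∈ S H) ∨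
      Forces U n F fun H => ∀ p, Idem p → S H ∉ p := by
    intro E hE
    rcases dich2 hU hS (hE.1.image Prod.fst) (by
      rintro _ ⟨q, hq, rfl⟩
      exact hE.2.1 q hq) n F with ⟨β, h1, h2, h3⟩ | h
    · exact Or.inl ⟨β, h1, fun q hq => h2 _ ⟨q, hq, rfl⟩, h3⟩
    · exact Or.inr h
  rcases key hD with ⟨β, h1, h2, h3⟩ | h
  · have hD1 := hD.insert h1 h2 false
    rcases key hD1 with ⟨β', h1', h2', h3'⟩ | h
    · refine ⟨_, (Set.subset_insert _ _).trans (Set.subset_insert _ _), hD1.insert h1' h2' true, ?_⟩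
      refine (h3.and h3').mono fun H _ _ hH => Or.inr ⟨β, β', ?_, ?_, hH⟩
      · exact Set.mem_insert_of_mem _ (Set.mem_insert _ _)
      · exact Set.mem_insert _ _
    · exact ⟨D, subset_rfl, hD, h.mono fun H _ _ hH => Or.inl hH⟩
  · exact ⟨D, subset_rfl, hD, h.mono fun H _ _ hH => Or.inl hH⟩

theorem req_all (hU : ∀ N, ∀ᶠ y in (U : Filter ℕ), N ≤ y) {S : Set ℕ → Set ℕ} (hS : OpenOp S)
    {D : Set (Tm × Bool)} (hD : Okay U D) (n : ℕ) (R : Finset (Finset ℕ)) :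
    ∃ D', D ⊆ D' ∧ Okay U D' ∧ ∃ σ : Finset ℕ → Set ℕ, (∀ G, σ G ∈ U) ∧
      ∀ H : Set ℕ, H.Infinite → stem H n ∈ R → Fol σ n H → Sat D' n S H := by
  classical
  induction R using Finset.induction_on with
  | empty =>
    exact ⟨D, subset_rfl, hD, fun _ => Set.univ, fun _ => univ_mem,
      fun H _ h => absurd h (Finset.notMem_empty _)⟩
  | insert F R _ ih =>
    obtain ⟨D1, h1, h2, σ, h3, h4⟩ := ih
    obtain ⟨D2, h5, h6, τ, h7, h8⟩ := req_one hU hS h2 n F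
    refine ⟨D2, h1.trans h5, h6, fun G => σ G ∩ τ G, fun G => inter_mem (h3 G) (h7 G), ?_⟩
    intro H hH hR hfol
    rcases Finset.mem_insert.1 hR with hR | hR
    · exact h8 H hH hR fun x hx hn => (hfol x hx hn).2
    · exact (h4 H hH hR fun x hx hn => (hfol x hx hn).1).mono h5

theorem sections {D : Set (Tm × Bool)} (hD : Okay U D) :
    ∀ᶠ x in (U : Filter ℕ), ∃ D', D ⊆ D' ∧ Okay U D' ∧
      ∀ f a, (Tm.node f, a) ∈ D → (f x, a) ∈ D' := by
  let sec : ℕ → Tm → Tm := fun x t => match t with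
    | .leaf m => .leaf m
    | .node f => f x
  have h1 : ∀ᶠ x in (U : Filter ℕ), ∀ q ∈ D, ∀ q' ∈ D,
      (Eqv U (sec x q.1) q'.1 → q.2 = q'.2) ∧ (Eqv U (sec x q.1) (sec x q'.1) → q.2 = q'.2) := by
    rw [eventually_all_finite hD.1]
    intro q hq
    rw [eventually_all_finite hD.1]
    intro q' hq'
    have hr := hD.2.1 q hq
    have hr' := hD.2.1 q' hq'
    have hc := hD.2.2 q hq q' hq'
    obtain ⟨t, a⟩ := q
    obtain ⟨t', a'⟩ := q'
    cases t with
    | leaf m =>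
      cases t' with
      | leaf m' => exact Eventually.of_forall fun x => ⟨hc, hc⟩
      | node g =>
        filter_upwards [hr'.2 (.leaf m)] with x hx
        exact ⟨hc, fun h => absurd h.symm hx⟩
    | node f =>
      cases t' with
      | leaf m' =>
        filter_upwards [hr.2 (.leaf m')] with x hx
        exact ⟨fun h => absurd h hx, fun h => absurd h hx⟩
      | node g =>
        by_cases he : Eqv U (.node f) (.node g)
        · exact Eventually.of_forall fun x => ⟨fun _ => hc he, fun _ => hc he⟩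
        · have he' : ∀ᶠ y in (U : Filter ℕ), ¬ Eqv U (f y) (g y) := Ultrafilter.eventually_not.2 he
          filter_upwards [hr.2 (.node g), he'] with x hx hx'
          exact ⟨fun h => absurd h hx, fun h => absurd h hx'⟩
  filter_upwards [h1] with x hx
  refine ⟨D ∪ (fun q => (sec x q.1, q.2)) '' D, Set.subset_union_left,
    ⟨hD.1.union (hD.1.image _), ?_, ?_⟩, fun f a h => Or.inr ⟨_, h, rfl⟩⟩
  · rintro q (hq | ⟨q, hq, rfl⟩)
    · exact hD.2.1 q hq
    · have hr := hD.2.1 q hq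
      obtain ⟨t, a⟩ := q
      cases t with
      | leaf m => trivial
      | node f => exact hr.1 x
  · rintro q (hq | ⟨q, hq, rfl⟩) q' (hq' | ⟨q', hq', rfl⟩) he
    · exact hD.2.2 q hq q' hq' he
    · exact ((hx q' hq' q hq).1 he.symm).symm
    · exact (hx q hq q' hq').1 he
    · exact (hx q hq q' hq').2 he

/-- A stage of the construction. -/
structure St (U : Ultrafilter ℕ) where
  n : ℕ
  X : Finset ℕ
  D : Set (Tm × Bool)
  σ : Finset ℕ → Set ℕ
  ok : Okay U D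
  mem : ∀ G, σ G ∈ U
  lt : ∀ x ∈ X, x < n

/-- One step of the construction. -/
def Rel (S : Set ℕ → Set ℕ) (s s' : St U) : Prop :=
  ∃ x, s.n ≤ x ∧ s'.n = x + 1 ∧ s'.X = insert x s.X ∧ s.D ⊆ s'.D ∧ (∀ G, s'.σ G ⊆ s.σ G) ∧
    (∀ G ⊆ s.X, x ∈ s.σ G) ∧ (∀ f a, (Tm.node f, a) ∈ s.D → (f x, a) ∈ s'.D) ∧
    ∀ H : Set ℕ, H.Infinite → stem H s'.n ⊆ s'.X → Fol s'.σ s'.n H → Sat s'.D s'.n S H

theorem exists_rel (hU : ∀ N, ∀ᶠ y in (U : Filter ℕ), N ≤ y) {S : Set ℕ → Set ℕ} (hS : OpenOp S)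
    (s : St U) : ∃ s', Rel S s s' := by
  have h1 : ∀ᶠ x in (U : Filter ℕ), ∀ G ∈ s.X.powerset, x ∈ s.σ G :=
    (eventually_all_finset _).2 fun G _ => s.mem G
  obtain ⟨x, ⟨hx1, hx2⟩, D1, h2, h3, h4⟩ := (((hU s.n).and h1).and (sections s.ok)).exists
  obtain ⟨D2, h5, h6, τ, h7, h8⟩ := req_all hU hS h3 (x + 1) (insert x s.X).powerset
  refine ⟨⟨x + 1, insert x s.X, D2, fun G => s.σ G ∩ τ G, h6,
    fun G => inter_mem (s.mem G) (h7 G), fun y hy => ?_⟩, x, hx1, rfl, rfl, h2.trans h5,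
    fun G => Set.inter_subset_left, fun G hG => hx2 G (Finset.mem_powerset.2 hG),
    fun f a h => h5 (h4 f a h), fun H hH hst hfol => ?_⟩
  · rcases Finset.mem_insert.1 hy with rfl | hy
    · exact Nat.lt_succ_self _
    · have := s.lt y hy
      omega
  · exact h8 H hH (Finset.mem_powerset.2 hst) fun y hy hn => (hfol y hy hn).2

theorem main_build {ι : Type} [Countable ι] [Nonempty ι] (S : ι → Set ℕ → Set ℕ)
    (hS : ∀ e, OpenOp (S e)) :
    ∃ (X : Set ℕ) (c : ℕ → Bool), X.Infinite ∧ ∀ Z ⊆ X, Z.Infinite → ∀ e,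
      (∀ p, Idem p → S e Z ∉ p) ∨ ∃ m ∈ S e Z, ∃ m' ∈ S e Z, c m = false ∧ c m' = true := by
  classical
  let U : Ultrafilter ℕ := Filter.hyperfilter ℕ
  have hU : ∀ N, ∀ᶠ y in (U : Filter ℕ), N ≤ y := fun N =>
    Filter.hyperfilter_le_cofinite (Nat.cofinite_eq_atTop ▸ eventually_ge_atTop N)
  obtain ⟨en, hen⟩ := exists_surjective_nat ι
  choose nx hnx using fun k s => exists_rel hU (hS (en k)) s
  let s0 : St U := ⟨0, ∅, ∅, fun _ => Set.univ,
    ⟨Set.finite_empty, fun _ h => h.elim, fun _ h => h.elim⟩, fun _ => univ_mem,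
    fun _ h => absurd h (Finset.notMem_empty _)⟩
  let st : ℕ → St U := fun k => Nat.rec s0 nx k
  have hst : ∀ k, Rel (S (en k)) (st k) (st (k + 1)) := fun k => hnx k (st k)
  choose x hx1 hx2 hx3 hx4 hx5 hx6 hx7 hx8 using hst
  have mD : Monotone fun k => (st k).D := monotone_nat_of_le_succ hx4
  have mσ : ∀ G, Antitone fun k => (st k).σ G := fun G => antitone_nat_of_succ_le fun k => hx5 k G
  have mx : StrictMono x := strictMono_nat_of_lt_succ fun k => by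
    have := hx1 (k + 1)
    rw [hx2 k] at this
    omega
  have hX : ∀ k y, y ∈ (st k).X ↔ ∃ j < k, x j = y := by
    intro k
    induction k with
    | zero => intro y; simp [st, s0]
    | succ k ih =>
      intro y
      rw [hx3 k, Finset.mem_insert, ih]
      constructor
      · rintro (rfl | ⟨j, hj, rfl⟩)
        · exact ⟨k, Nat.lt_succ_self _, rfl⟩
        · exact ⟨j, by omega, rfl⟩
      · rintro ⟨j, hj, rfl⟩
        rcases Nat.lt_succ_iff_lt_or_eq.1 hj with h | rfl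
        · exact Or.inr ⟨j, h, rfl⟩
        · exact Or.inl rfl
  have hge : ∀ k j, (st k).n ≤ x j → k ≤ j := by
    intro k j h
    by_contra hc
    have := (st k).lt _ ((hX k _).2 ⟨j, by omega, rfl⟩)
    omega
  have hstem : ∀ Z ⊆ Set.range x, ∀ k, ∀ y ≤ x k, stem Z y ⊆ (st k).X := by
    intro Z hZ k y hy a ha
    obtain ⟨ha1, ha2⟩ := mem_stem.1 ha
    obtain ⟨j, rfl⟩ := hZ ha2
    exact (hX k _).2 ⟨j, mx.lt_iff_lt.1 (by omega), rfl⟩
  have real : ∀ (t : Tm) (a : Bool) (k m : ℕ), (t, a) ∈ (st k).D →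
      m ∈ val t (Set.range x) (st k).n → ∃ j, (Tm.leaf m, a) ∈ (st j).D := by
    intro t a
    induction t with
    | leaf m' =>
      intro k m h1 h2
      rw [mem_val_leaf.1 h2]
      exact ⟨k, h1⟩
    | node f ih =>
      intro k m h1 h2
      obtain ⟨_, ⟨j, rfl⟩, hn, h2⟩ := mem_val_node.1 h2
      refine ih (x j) (j + 1) m (hx7 j f a (mD (hge k j hn) h1)) ?_
      rw [hx2 j]
      exact h2
  refine ⟨Set.range x, fun m => decide (∃ j, (Tm.leaf m, true) ∈ (st j).D),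
    Set.infinite_range_of_injective mx.injective, fun Z hZ hZi e => ?_⟩
  obtain ⟨k, rfl⟩ := hen e
  have hfol : Fol (st (k + 1)).σ (st (k + 1)).n Z := by
    intro y hy hn
    obtain ⟨j, rfl⟩ := hZ hy
    exact mσ _ (hge (k + 1) j hn) (hx6 j _ (hstem Z hZ j _ le_rfl))
  rcases hx8 k Z hZi (hstem Z hZ (k + 1) _ (hx1 (k + 1))) hfol with
    h | ⟨β, β', h1, h2, ⟨m, hm, hm2⟩, m', hm', hm2'⟩
  · exact Or.inl h
  · refine Or.inr ⟨m, hm2, m', hm2', ?_, ?_⟩
    · obtain ⟨j, hj⟩ := real β false (k + 1) m h1 (val_mono hZ le_rfl hm)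
      simp only [decide_eq_false_iff_not]
      rintro ⟨j', hj'⟩
      have := (st (max j j')).ok.2.2 _ (mD (le_max_left _ _) hj) _ (mD (le_max_right _ _) hj')
        (Eqv.refl _)
      cases this
    · simp only [decide_eq_true_eq]
      exact real β' true (k + 1) m' h2 (val_mono hZ le_rfl hm')

end Pool.Agent.H679Z
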