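import Mathlib

set_option autoImplicit false

namespace Pool.Agent.H679Z

open Filter

open Classical in
/-- The elements of `H` below `n`. -/
noncomputable def stem (H : Set ℕ) (n : ℕ) : Finset ℕ := (Finset.range n).filter (· ∈ H)

theorem mem_stem {H : Set ℕ} {n x : ℕ} : x ∈ stem H n ↔ x < n ∧ x ∈ H := by
  simp [stem]

theorem stem_succ_mem {H : Set ℕ} {n : ℕ} (h : n ∈ H) : stem H (n + 1) = insert n (stem H n) := by
  ext x
  simp only [mem_stem, Finset.mem_insert]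
  constructor
  · rintro ⟨h1, h2⟩
    rcases Nat.lt_succ_iff_lt_or_eq.1 h1 with h3 | h3
    · exact Or.inr ⟨h3, h2⟩
    · exact Or.inl h3
  · rintro (rfl | ⟨h1, h2⟩)
    · exact ⟨Nat.lt_succ_self _, h⟩
    · exact ⟨by omega, h2⟩

theorem stem_succ_not_mem {H : Set ℕ} {n : ℕ} (h : n ∉ H) : stem H (n + 1) = stem H n := by
  ext x
  simp only [mem_stem]
  constructor
  · rintro ⟨h1, h2⟩
    rcases Nat.lt_succ_iff_lt_or_eq.1 h1 with h3 | h3
    · exact ⟨h3, h2⟩
    · exact absurd (h3 ▸ h2) h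
  · rintro ⟨h1, h2⟩
    exact ⟨by omega, h2⟩

theorem stem_stem {H : Set ℕ} {x y : ℕ} (h : y ≤ x) : stem (↑(stem H x)) y = stem H y := by
  ext a
  simp only [mem_stem, Finset.mem_coe]
  constructor
  · rintro ⟨h1, _, h2⟩
    exact ⟨h1, h2⟩
  · rintro ⟨h1, h2⟩
    exact ⟨h1, by omega, h2⟩

theorem stem_agree {H H' : Set ℕ} {n : ℕ} (h : stem H' n = stem H n) :
    ∀ i < n, (i ∈ H' ↔ i ∈ H) := by
  intro i hi
  have h1 : i ∈ stem H' n ↔ i ∈ stem H n := by rw [h]
  simp only [mem_stem, hi, true_and] at h1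
  exact h1

/-- `H` follows the strategy `σ` from position `n` on. -/
def Fol (σ : Finset ℕ → Set ℕ) (n : ℕ) (H : Set ℕ) : Prop :=
  ∀ x ∈ H, n ≤ x → x ∈ σ (stem H x)

variable (U : Ultrafilter ℕ)

/-- The stem `G` at position `n` forces the property `O`. -/
def Forces (n : ℕ) (G : Finset ℕ) (O : Set ℕ → Prop) : Prop :=
  ∃ σ : Finset ℕ → Set ℕ, (∀ G', σ G' ∈ U) ∧
    ∀ H : Set ℕ, H.Infinite → stem H n = G → Fol σ n H → O H

variable {U}

theorem Forces.of_forall {n : ℕ} {G : Finset ℕ} {O : Set ℕ → Prop}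
    (h : ∀ H : Set ℕ, H.Infinite → stem H n = G → O H) : Forces U n G O :=
  ⟨fun _ => Set.univ, fun _ => univ_mem, fun H h1 h2 _ => h H h1 h2⟩

theorem Forces.mono {n : ℕ} {G : Finset ℕ} {O O' : Set ℕ → Prop} (h : Forces U n G O)
    (hO : ∀ H : Set ℕ, H.Infinite → stem H n = G → O H → O' H) : Forces U n G O' := by
  obtain ⟨σ, h1, h2⟩ := h
  exact ⟨σ, h1, fun H a b c => hO H a b (h2 H a b c)⟩

theorem Forces.and {n : ℕ} {G : Finset ℕ} {O O' : Set ℕ → Prop} (h : Forces U n G O)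
    (h' : Forces U n G O') : Forces U n G fun H => O H ∧ O' H := by
  obtain ⟨σ, h1, h2⟩ := h
  obtain ⟨σ', h1', h2'⟩ := h'
  refine ⟨fun G' => σ G' ∩ σ' G', fun G' => inter_mem (h1 G') (h1' G'), fun H a b c => ⟨?_, ?_⟩⟩
  · exact h2 H a b fun x hx hn => (c x hx hn).1
  · exact h2' H a b fun x hx hn => (c x hx hn).2

theorem Forces.finset {ι : Type} {n : ℕ} {G : Finset ℕ} {O : ι → Set ℕ → Prop} (s : Finset ι)
    (h : ∀ i ∈ s, Forces U n G (O i)) : Forces U n G fun H => ∀ i ∈ s, O i H := by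
  classical
  induction s using Finset.induction_on with
  | empty => exact Forces.of_forall fun H _ _ i hi => absurd hi (Finset.notMem_empty i)
  | insert a s _ ih =>
    have h1 := (h a (Finset.mem_insert_self a s)).and
      (ih fun i hi => h i (Finset.mem_insert_of_mem hi))
    refine h1.mono fun H _ _ hH i hi => ?_
    rcases Finset.mem_insert.1 hi with rfl | hi
    · exact hH.1
    · exact hH.2 i hi

theorem Forces.finite {ι : Type} {n : ℕ} {G : Finset ℕ} {O : ι → Set ℕ → Prop} {s : Set ι}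
    (hs : s.Finite) (h : ∀ i ∈ s, Forces U n G (O i)) : Forces U n G fun H => ∀ i ∈ s, O i H := by
  have := Forces.finset (U := U) (n := n) (G := G) (O := O) hs.toFinset
    fun i hi => h i (hs.mem_toFinset.1 hi)
  exact this.mono fun H _ _ hH i hi => hH i (hs.mem_toFinset.2 hi)

theorem Forces.always {n : ℕ} {G : Finset ℕ} {O : Finset ℕ → ℕ → Set ℕ → Prop}
    (h : ∀ G', ∀ᶠ y in (U : Filter ℕ), Forces U (y + 1) (insert y G') (O G' y)) :
    Forces U n G fun H => ∀ y ∈ H, n ≤ y → O (stem H y) y H := by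
  classical
  have h1 : ∀ (G' : Finset ℕ) (y : ℕ), ∃ σ : Finset ℕ → Set ℕ, (∀ G'', σ G'' ∈ U) ∧
      (Forces U (y + 1) (insert y G') (O G' y) → ∀ H : Set ℕ, H.Infinite →
        stem H (y + 1) = insert y G' → Fol σ (y + 1) H → O G' y H) := by
    intro G' y
    by_cases hF : Forces U (y + 1) (insert y G') (O G' y)
    · obtain ⟨σ, a, b⟩ := hF
      exact ⟨σ, a, fun _ => b⟩
    · exact ⟨fun _ => Set.univ, fun _ => univ_mem, fun h' => absurd h' hF⟩
  choose τ hτ1 hτ2 using h1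
  refine ⟨fun G'' => {y | Forces U (y + 1) (insert y G'') (O G'' y)} ∩
    ⋂ y ∈ G'', τ (stem (↑G'') y) y G'', fun G'' => inter_mem (h G'') ?_, ?_⟩
  · exact (biInter_finset_mem G'').2 fun y _ => hτ1 _ _ _
  · intro H hH _ hF y hy hny
    refine hτ2 _ _ (hF y hy hny).1 H hH (stem_succ_mem hy) fun x hx hyx => ?_
    have h2 := (hF x hx (by omega)).2
    have h3 := Set.mem_iInter₂.1 h2 y (mem_stem.2 ⟨by omega, hy⟩)
    rwa [stem_stem (by omega)] at h3

theorem exists_next {H : Set ℕ} (hH : H.Infinite) (n : ℕ) :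
    ∃ y ∈ H, n ≤ y ∧ stem H y = stem H n := by
  classical
  have hex : ∃ y, y ∈ H ∧ n ≤ y := by
    obtain ⟨y, hy, hn⟩ := hH.exists_gt n
    exact ⟨y, hy, hn.le⟩
  refine ⟨Nat.find hex, (Nat.find_spec hex).1, (Nat.find_spec hex).2, ?_⟩
  ext a
  simp only [mem_stem]
  constructor
  · rintro ⟨h1, h2⟩
    refine ⟨?_, h2⟩
    by_contra h3
    exact Nat.find_min hex h1 ⟨h2, by omega⟩
  · rintro ⟨h1, h2⟩
    exact ⟨lt_of_lt_of_le h1 (Nat.find_spec hex).2, h2⟩

theorem Forces.glue {n : ℕ} {G : Finset ℕ} {O : ℕ → Set ℕ → Prop}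
    (h : ∀ᶠ y in (U : Filter ℕ), Forces U (y + 1) (insert y G) (O y)) :
    Forces U n G fun H => ∃ y ∈ H, n ≤ y ∧ O y H := by
  have h1 : Forces U n G fun H => ∀ y ∈ H, n ≤ y → (stem H y = G → O y H) := by
    refine Forces.always (O := fun G' y H => G' = G → O y H) fun G' => ?_
    by_cases hG : G' = G
    · subst hG
      filter_upwards [h] with y hy
      exact hy.mono fun H _ _ h2 _ => h2
    · exact Eventually.of_forall fun y => Forces.of_forall fun H _ _ h2 => absurd h2 hG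
  refine h1.mono fun H hH hG h2 => ?_
  obtain ⟨y, hy, hn, hs⟩ := exists_next hH n
  exact ⟨y, hy, hn, h2 y hy hn (hs.trans hG)⟩

end Pool.Agent.H679Z
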