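import Pool.Agent.H679Z.Build
import Pool.Agent.H679Z.Oracle

set_option autoImplicit false

namespace Pool.Agent.H679Z

open Filter

theorem exists_fast (V : Ultrafilter ℕ) (hV : ∀ N, ∀ᶠ y in (V : Filter ℕ), N ≤ y)
    (τ : Finset ℕ → Set ℕ) (hτ : ∀ G, τ G ∈ V) :
    ∃ Z : Set ℕ, Z.Infinite ∧ ∀ x ∈ Z, ∀ G : Finset ℕ, (∀ a ∈ G, a ∈ Z ∧ a < x) → x ∈ τ G := by
  classical
  have h1 : ∀ n : ℕ, ∃ x, n ≤ x ∧ ∀ G ∈ (Finset.range n).powerset, x ∈ τ G := fun n =>
    ((hV n).and ((eventually_all_finset _).2 fun G _ => hτ G)).exists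
  choose nx h2 h3 using h1
  let z : ℕ → ℕ := fun k => Nat.rec (nx 0) (fun _ a => nx (a + 1)) k
  have hz : StrictMono z := strictMono_nat_of_lt_succ fun k => h2 (z k + 1)
  refine ⟨Set.range z, Set.infinite_range_of_injective hz.injective, ?_⟩
  rintro _ ⟨k, rfl⟩ G hG
  cases k with
  | zero =>
    refine h3 0 G (Finset.mem_powerset.2 fun a ha => ?_)
    obtain ⟨⟨j, rfl⟩, hj⟩ := hG a ha
    exact absurd (hz.lt_iff_lt.1 hj) (Nat.not_lt_zero _)
  | succ k =>
    refine h3 (z k + 1) G (Finset.mem_powerset.2 fun a ha => ?_)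
    obtain ⟨⟨j, rfl⟩, hj⟩ := hG a ha
    have := hz.monotone (Nat.lt_succ_iff.1 (hz.lt_iff_lt.1 hj))
    exact Finset.mem_range.2 (by omega)

theorem exists_lim (V : Ultrafilter ℕ) (f : ℕ → Bool) : ∃ b, ∀ᶠ y in (V : Filter ℕ), f y = b := by
  by_cases h : ∀ᶠ y in (V : Filter ℕ), f y = true
  · exact ⟨true, h⟩
  · refine ⟨false, (Ultrafilter.eventually_not.2 h).mono fun y hy => ?_⟩
    simpa using hy

/-- Limit colours of stems. -/
noncomputable def limc (V : Ultrafilter ℕ) (d : Finset ℕ → Bool) : ℕ → Finset ℕ → Bool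
  | 0, G => d G
  | j + 1, G => (exists_lim V fun y => limc V d j (insert y G)).choose

theorem limc_spec (V : Ultrafilter ℕ) (d : Finset ℕ → Bool) (j : ℕ) (G : Finset ℕ) :
    ∀ᶠ y in (V : Filter ℕ), limc V d j (insert y G) = limc V d (j + 1) G :=
  (exists_lim V fun y => limc V d j (insert y G)).choose_spec

/-- Ramsey theorem for exactly large sets inside an infinite set. -/
theorem schreier_ramsey {X : Set ℕ} (hX : X.Infinite) (d : Finset ℕ → Bool) :
    ∃ Z ⊆ X, Z.Infinite ∧ ∃ b, ∀ s : Finset ℕ, (∀ i ∈ s, i ∈ Z) →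
      (∃ m ∈ s, (∀ i ∈ s, m ≤ i) ∧ s.card = m + 1) → d s = b := by
  classical
  have hne : (Filter.cofinite ⊓ 𝓟 X).NeBot := by
    rw [← frequently_mem_iff_neBot]
    exact hX.frequently_cofinite
  let V : Ultrafilter ℕ := Ultrafilter.of (Filter.cofinite ⊓ 𝓟 X)
  have hle : (V : Filter ℕ) ≤ Filter.cofinite ⊓ 𝓟 X := Ultrafilter.of_le _
  have hV : ∀ N, ∀ᶠ y in (V : Filter ℕ), N ≤ y := fun N =>
    (hle.trans inf_le_left) (Nat.cofinite_eq_atTop ▸ eventually_ge_atTop N)
  have hXV : X ∈ V := (hle.trans inf_le_right) (mem_principal_self X)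
  obtain ⟨b, hb⟩ := exists_lim V fun y => limc V d y {y}
  obtain ⟨Z, hZ, hfast⟩ := exists_fast V hV
    (fun G => {x | (x ∈ X ∧ limc V d x {x} = b) ∧
      ∀ j ∈ Finset.range (G.sup id + 1), limc V d j (insert x G) = limc V d (j + 1) G})
    fun G => (Eventually.and (Eventually.and hXV hb)
      ((eventually_all_finset _).2 fun j _ => limc_spec V d j G))
  have h0 : ∀ x ∈ Z, x ∈ X ∧ limc V d x {x} = b := fun x hx =>
    (hfast x hx ∅ fun a ha => absurd ha (Finset.notMem_empty a)).1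
  refine ⟨Z, fun x hx => (h0 x hx).1, hZ, b, ?_⟩
  rintro s hs ⟨m, hm, hmin, hcard⟩
  have key : ∀ (j : ℕ) (G t : Finset ℕ), m ∈ G → (∀ a ∈ G, a ∈ Z) → (∀ a ∈ t, a ∈ Z) →
      (∀ a ∈ G, ∀ c ∈ t, a < c) → t.card = j → j ≤ m → limc V d j G = d (G ∪ t) := by
    intro j
    induction j with
    | zero =>
      intro G t _ _ _ _ ht _
      rw [Finset.card_eq_zero.1 ht, Finset.union_empty]
      rfl
    | succ j ih =>
      intro G t hmG hG ht hlt hc hj
      have htne : t.Nonempty := Finset.card_pos.1 (by omega)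
      have hy := t.min'_mem htne
      set y := t.min' htne with hydef
      have h1 := (hfast y (ht y hy) G fun a ha => ⟨hG a ha, hlt a ha y hy⟩).2 j (by
        have : m ≤ G.sup id := Finset.le_sup (f := id) hmG
        exact Finset.mem_range.2 (by omega))
      rw [← h1, ih (insert y G) (t.erase y) (Finset.mem_insert_of_mem hmG) ?_ ?_ ?_ ?_ (by omega)]
      · congr 1
        ext a
        simp only [Finset.mem_union, Finset.mem_insert, Finset.mem_erase]
        constructor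
        · rintro ((rfl | h) | h)
          · exact Or.inr hy
          · exact Or.inl h
          · exact Or.inr h.2
        · rintro (h | h)
          · exact Or.inl (Or.inr h)
          · by_cases hay : a = y
            · exact Or.inl (Or.inl hay)
            · exact Or.inr ⟨hay, h⟩
      · intro a ha
        rcases Finset.mem_insert.1 ha with rfl | ha
        · exact ht _ hy
        · exact hG a ha
      · intro a ha
        exact ht a (Finset.mem_of_mem_erase ha)
      · intro a ha c hc'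
        rcases Finset.mem_insert.1 ha with rfl | ha
        · exact lt_of_le_of_ne (t.min'_le c (Finset.mem_of_mem_erase hc'))
            (Finset.ne_of_mem_erase hc').symm
        · exact hlt a ha c (Finset.mem_of_mem_erase hc')
      · rw [Finset.card_erase_of_mem hy]
        omega
  have h2 := key m {m} (s.erase m) (Finset.mem_singleton_self m)
    (fun a ha => by rw [Finset.mem_singleton.1 ha]; exact hs m hm)
    (fun a ha => hs a (Finset.mem_of_mem_erase ha))
    (fun a ha c hc => by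
      rw [Finset.mem_singleton.1 ha]
      exact lt_of_le_of_ne (hmin c (Finset.mem_of_mem_erase hc)) (Finset.ne_of_mem_erase hc).symm)
    (by rw [Finset.card_erase_of_mem hm]; omega) le_rfl
  rw [← Finset.insert_eq, Finset.insert_erase hm] at h2
  rw [← h2]
  exact (h0 m (hs m hm)).2

/-- The set of nonempty finite sums of distinct elements. -/
def fsums (W : Set ℕ) : Set ℕ := {m | ∃ s : Finset ℕ, s.Nonempty ∧ (∀ i ∈ s, i ∈ W) ∧ ∑ i ∈ s, i = m}

theorem fs_sub (a : Stream' ℕ) (m : ℕ) (hm : m ∈ Hindman.FS a) :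
    StrictMono a.get → ∃ s : Finset ℕ, s.Nonempty ∧ (∀ i ∈ s, ∃ j, a.get j = i) ∧
      ∑ i ∈ s, i = m := by
  classical
  induction hm with
  | head' a =>
    intro _
    exact ⟨{a.head}, Finset.singleton_nonempty _,
      fun i hi => ⟨0, (Finset.mem_singleton.1 hi).symm⟩, Finset.sum_singleton _ _⟩
  | tail' a m _ ih =>
    intro ha
    obtain ⟨s, h1, h2, h3⟩ := ih fun i j hij => ha (Nat.succ_lt_succ hij)
    refine ⟨s, h1, fun i hi => ?_, h3⟩
    obtain ⟨j, hj⟩ := h2 i hi
    exact ⟨j + 1, hj⟩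
  | cons' a m _ ih =>
    intro ha
    obtain ⟨s, h1, h2, h3⟩ := ih fun i j hij => ha (Nat.succ_lt_succ hij)
    have hn : a.head ∉ s := fun h => by
      obtain ⟨j, hj⟩ := h2 _ h
      have : a.get 0 < a.get (j + 1) := ha (Nat.succ_pos j)
      exact absurd hj this.ne'
    refine ⟨insert a.head s, Finset.insert_nonempty _ _, fun i hi => ?_, ?_⟩
    · rcases Finset.mem_insert.1 hi with rfl | hi
      · exact ⟨0, rfl⟩
      · obtain ⟨j, hj⟩ := h2 i hi
        exact ⟨j + 1, hj⟩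
    · rw [Finset.sum_insert hn, h3]

attribute [local instance] Ultrafilter.add in
theorem exists_idem {W : Set ℕ} (hW : W.Infinite) (hpos : ∀ i ∈ W, 0 < i) :
    ∃ p, Idem p ∧ fsums W ∈ p := by
  classical
  let a : Stream' ℕ := fun n => Nat.nth (· ∈ W) n
  have ha : StrictMono a.get := Nat.nth_strictMono hW
  obtain ⟨p, hp, hFS⟩ := Hindman.exists_idempotent_ultrafilter_le_FS a
  have hS : fsums W ∈ p := by
    refine mem_of_superset hFS fun m hm => ?_
    obtain ⟨s, h1, h2, h3⟩ := fs_sub a m hm ha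
    refine ⟨s, h1, fun i hi => ?_, h3⟩
    obtain ⟨j, rfl⟩ := h2 i hi
    exact Nat.nth_mem_of_infinite hW j
  have hnz : ∀ᶠ m in (p : Filter ℕ), m ≠ 0 := by
    refine mem_of_superset hS ?_
    rintro m ⟨s, ⟨i, hi⟩, h2, rfl⟩
    have h3 : i ≤ ∑ i ∈ s, i := Finset.single_le_sum (f := fun i => i) (fun _ _ => Nat.zero_le _) hi
    have := hpos i (h2 i hi)
    change _ ≠ 0
    omega
  have hadd : ∀ A ∈ p, ∀ᶠ m in (p : Filter ℕ), ∀ᶠ m' in (p : Filter ℕ), m + m' ∈ A := by
    intro A hA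
    have h1 : ∀ᶠ m in ((p + p : Ultrafilter ℕ) : Filter ℕ), m ∈ A := by
      rw [hp]
      exact hA
    exact (Ultrafilter.eventually_add p p _).1 h1
  refine ⟨p, ⟨fun b hb => ?_, fun A hA => ?_⟩, hS⟩
  · obtain ⟨m, ⟨hm1, hm2⟩, hm3⟩ := (((hadd _ hb).and hnz).and hb).exists
    obtain ⟨m', hm4, hm5⟩ := (hm1.and hb).exists
    have e3 : m = b := hm3
    have e4 : m + m' = b := hm4
    have e5 : m' = b := hm5
    omega
  · obtain ⟨m, hm1, hm2⟩ := ((hadd _ hA).and hnz).exists
    exact ⟨m, hm2, hm1⟩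

theorem fsums_open (e : OC) : OpenOp fun H => fsums (Wout e H) := by
  rintro H m ⟨s, h1, h2, h3⟩
  have h4 : ∀ i, ∃ N, i ∈ s → ∀ H' : Set ℕ, (∀ j < N, (j ∈ H' ↔ j ∈ H)) → i ∈ Wout e H' := by
    intro i
    by_cases hi : i ∈ s
    · obtain ⟨N, hN⟩ := Wout_open e H i (h2 i hi)
      exact ⟨N, fun _ => hN⟩
    · exact ⟨0, fun h => absurd h hi⟩
  choose N hN using h4
  refine ⟨s.sup N, fun H' hH' => ⟨s, h1, fun i hi => hN i hi H' fun j hj => hH' j ?_, h3⟩⟩
  exact lt_of_lt_of_le hj (Finset.le_sup hi)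

open Classical in
/-- There are a 2-colouring `c` and an infinite set `X` such that no infinite subset of `X`
computes an infinite set of positive integers with monochromatic finite sums. -/
theorem no_encoding : ∃ (X : Set ℕ) (c : ℕ → Bool), X.Infinite ∧ ∀ Z ⊆ X, Z.Infinite →
    ∀ g : ℕ → Bool, TuringReducible (orcB g) (orcB fun n => decide (n ∈ Z)) →
      Set.Infinite {n | g n = true} → (∀ i, g i = true → 0 < i) →
      ∀ b, ¬ ∀ s : Finset ℕ, s.Nonempty → (∀ i ∈ s, g i = true) → c (∑ i ∈ s, i) = b := by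
  obtain ⟨X, c, hX, h⟩ := main_build (fun e H => fsums (Wout e H)) fsums_open
  refine ⟨X, c, hX, fun Z hZ hZi g hg hinf hpos b hb => ?_⟩
  obtain ⟨e, he⟩ := exists_Wout hg
  rcases h Z hZ hZi e with h | ⟨m, ⟨s, h1, h2, rfl⟩, m', ⟨s', h1', h2', rfl⟩, h3, h4⟩
  · obtain ⟨p, hp1, hp2⟩ := exists_idem hinf hpos
    rw [← he] at hp2
    exact h p hp1 hp2
  · rw [he] at h2 h2'
    rw [hb s h1 h2] at h3
    rw [hb s' h1' h2', h3] at h4
    cases h4

end Pool.Agent.H679Z
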