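import Pool.Agent.H679Z.Force

set_option autoImplicit false

namespace Pool.Agent.H679Z

open Filter

/-- Well-founded trees whose leaves carry numbers: names for numbers read off a fast set. -/
inductive Tm : Type
  | leaf (m : ℕ) : Tm
  | node (f : ℕ → Tm) : Tm

variable (U : Ultrafilter ℕ)

/-- Equality of terms modulo the ultrafilter. -/
def Eqv : Tm → Tm → Prop
  | .leaf m, .leaf m' => m = m'
  | .leaf _, .node _ => False
  | .node _, .leaf _ => False
  | .node f, .node g => ∀ᶠ x in (U : Filter ℕ), Eqv (f x) (g x)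

/-- Reduced terms: every node really depends on its variable. -/
def Red : Tm → Prop
  | .leaf _ => True
  | .node f => (∀ x, Red (f x)) ∧ ∀ s, ∀ᶠ x in (U : Filter ℕ), ¬ Eqv U (f x) s

/-- The sections of a term along the part of `H` from `n` on. -/
def Reach : Tm → Set ℕ → ℕ → Tm → Prop
  | .leaf m, _, _, s => s = .leaf m
  | .node f, H, n, s => s = .node f ∨ ∃ x ∈ H, n ≤ x ∧ Reach (f x) H (x + 1) s

/-- The values of a term along the part of `H` from `n` on. -/
def val (t : Tm) (H : Set ℕ) (n : ℕ) : Set ℕ := {m | Reach t H n (.leaf m)}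

/-- Adding a constant to all leaves. -/
def shift (a : ℕ) : Tm → Tm
  | .leaf m => .leaf (a + m)
  | .node f => .node fun x => shift a (f x)

variable {U}

theorem Eqv.refl : ∀ t : Tm, Eqv U t t
  | .leaf _ => rfl
  | .node f => Eventually.of_forall fun x => Eqv.refl (f x)

theorem Eqv.symm : ∀ {t s : Tm}, Eqv U t s → Eqv U s t
  | .leaf _, .leaf _, h => Eq.symm h
  | .leaf _, .node _, h => h.elim
  | .node _, .leaf _, h => h.elim
  | .node _, .node _, h => Eventually.mono h fun _ hx => Eqv.symm hx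

theorem Eqv.trans : ∀ {t s r : Tm}, Eqv U t s → Eqv U s r → Eqv U t r
  | .leaf _, .leaf _, .leaf _, h, h' => Eq.trans h h'
  | .leaf _, .leaf _, .node _, _, h' => h'.elim
  | .leaf _, .node _, _, h, _ => h.elim
  | .node _, .leaf _, _, h, _ => h.elim
  | .node _, .node _, .leaf _, _, h' => h'.elim
  | .node _, .node _, .node _, h, h' =>
    Eventually.mono (Eventually.and h h') fun _ hx => Eqv.trans hx.1 hx.2

theorem eqv_leaf {m : ℕ} {s : Tm} (h : Eqv U (.leaf m) s) : s = .leaf m := by
  cases s with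
  | leaf m' => exact congrArg Tm.leaf (Eq.symm h)
  | node g => exact h.elim

theorem Reach.refl : ∀ (t : Tm) (H : Set ℕ) (n : ℕ), Reach t H n t
  | .leaf _, _, _ => rfl
  | .node _, _, _ => Or.inl rfl

theorem Reach.mono : ∀ {t : Tm} {H H' : Set ℕ} {n n' : ℕ} {s : Tm}, H ⊆ H' → n' ≤ n →
    Reach t H n s → Reach t H' n' s
  | .leaf _, _, _, _, _, _, _, _, h => h
  | .node _, _, _, _, _, _, hH, hn, h => by
    rcases h with h | ⟨x, hx, hnx, h⟩
    · exact Or.inl h
    · exact Or.inr ⟨x, hH hx, hn.trans hnx, Reach.mono hH le_rfl h⟩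

theorem Reach.ext : ∀ {t : Tm} {H : Set ℕ} {n : ℕ} {g : ℕ → Tm} {y : ℕ}, (∀ x ∈ H, x < y) → n ≤ y →
    Reach t H n (.node g) → Reach t (insert y H) n (g y)
  | .leaf _, _, _, _, _, _, _, h => by cases h
  | .node f, H, n, g, y, hH, hn, h => by
    rcases h with h | ⟨x, hx, hnx, h⟩
    · cases h
      exact Or.inr ⟨y, Set.mem_insert _ _, hn, Reach.refl _ _ _⟩
    · exact Or.inr ⟨x, Set.mem_insert_of_mem _ hx, hnx, Reach.ext hH (hH x hx) h⟩

theorem mem_val_leaf {m a : ℕ} {H : Set ℕ} {n : ℕ} : a ∈ val (.leaf m) H n ↔ a = m := by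
  constructor
  · intro h
    cases h
    rfl
  · rintro rfl
    exact rfl

theorem mem_val_node {f : ℕ → Tm} {a : ℕ} {H : Set ℕ} {n : ℕ} :
    a ∈ val (.node f) H n ↔ ∃ x ∈ H, n ≤ x ∧ a ∈ val (f x) H (x + 1) := by
  constructor
  · rintro (h | h)
    · cases h
    · exact h
  · intro h
    exact Or.inr h

theorem val_mono {t : Tm} {H H' : Set ℕ} {n n' : ℕ} (hH : H ⊆ H') (hn : n' ≤ n) :
    val t H n ⊆ val t H' n' := fun _ h => Reach.mono hH hn h

theorem mem_val_shift {a : ℕ} : ∀ {t : Tm} {H : Set ℕ} {n b : ℕ}, b ∈ val t H n →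
    a + b ∈ val (shift a t) H n
  | .leaf m, _, _, _, h => by
    rw [mem_val_leaf] at h
    subst h
    exact mem_val_leaf.2 rfl
  | .node f, _, _, _, h => by
    obtain ⟨x, hx, hn, h⟩ := mem_val_node.1 h
    exact mem_val_node.2 ⟨x, hx, hn, mem_val_shift h⟩

theorem not_eqv_shift {a : ℕ} (ha : a ≠ 0) : ∀ t : Tm, ¬ Eqv U (shift a t) t
  | .leaf m => fun h => by
    have : a + m = m := h
    omega
  | .node f => fun h => by
    obtain ⟨x, hx⟩ := Eventually.exists (f := (U : Filter ℕ)) h
    exact not_eqv_shift ha (f x) hx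

theorem eqv_of_shift {a : ℕ} : ∀ {t s : Tm}, Eqv U (shift a t) (shift a s) → Eqv U t s
  | .leaf m, .leaf m', h => by
    have : a + m = a + m' := h
    change m = m'
    omega
  | .leaf _, .node _, h => h.elim
  | .node _, .leaf _, h => h.elim
  | .node _, .node _, h => Eventually.mono h fun _ hx => eqv_of_shift hx

theorem red_shift {a : ℕ} : ∀ {t : Tm}, Red U t → Red U (shift a t)
  | .leaf _, _ => trivial
  | .node f, h => by
    refine ⟨fun x => red_shift (h.1 x), fun s => ?_⟩
    by_contra hc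
    have h1 : ∀ᶠ x in (U : Filter ℕ), Eqv U (shift a (f x)) s := by
      have := Ultrafilter.eventually_not.not.1 hc
      simpa using this
    obtain ⟨x0, hx0⟩ := h1.exists
    obtain ⟨x, hx1, hx2⟩ := (h1.and (h.2 (f x0))).exists
    exact hx2 (eqv_of_shift (hx1.trans hx0.symm))

theorem eqv_val : ∀ {t s : Tm}, Eqv U t s → ∀ (n : ℕ) (G : Finset ℕ),
    Forces U n G fun H => val t H n ⊆ val s H n
  | .leaf _, .leaf _, h, _, _ => by
    cases h
    exact Forces.of_forall fun _ _ _ => subset_rfl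
  | .leaf _, .node _, h, _, _ => h.elim
  | .node _, .leaf _, h, _, _ => h.elim
  | .node f, .node g, h, n, G => by
    have h1 : Forces U n G fun H => ∀ y ∈ H, n ≤ y → val (f y) H (y + 1) ⊆ val (g y) H (y + 1) := by
      refine Forces.always (O := fun _ y H => val (f y) H (y + 1) ⊆ val (g y) H (y + 1)) fun G' => ?_
      exact Eventually.mono h fun y hy => eqv_val hy _ _
    refine h1.mono fun H _ _ hH a ha => ?_
    obtain ⟨x, hx, hn, ha⟩ := mem_val_node.1 ha
    exact mem_val_node.2 ⟨x, hx, hn, hH x hx hn ha⟩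

theorem disj_val (t : Tm) : ∀ s : Tm, Red U t → Red U s → ¬ Eqv U t s → ∀ (n : ℕ) (G : Finset ℕ),
    Forces U n G fun H => ∀ a, a ∈ val t H n → a ∉ val s H n := by
  induction t with
  | leaf m =>
    intro s
    induction s with
    | leaf m' =>
      intro _ _ h n G
      refine Forces.of_forall fun H _ _ a h1 h2 => h ?_
      rw [mem_val_leaf] at h1 h2
      exact h1.symm.trans h2
    | node g ih =>
      intro ht hs _ n G
      have h1 : Forces U n G fun H => ∀ y ∈ H, n ≤ y →
          ∀ a, a ∈ val (.leaf m) H (y + 1) → a ∉ val (g y) H (y + 1) := by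
        refine Forces.always (O := fun _ y H =>
          ∀ a, a ∈ val (.leaf m) H (y + 1) → a ∉ val (g y) H (y + 1)) fun G' => ?_
        exact (hs.2 (.leaf m)).mono fun y hy => ih y ht (hs.1 y) (fun h => hy h.symm) _ _
      refine h1.mono fun H _ _ hH a h2 h3 => ?_
      obtain ⟨x, hx, hn, h3⟩ := mem_val_node.1 h3
      exact hH x hx hn a (mem_val_leaf.2 (mem_val_leaf.1 h2)) h3
  | node f ihf =>
    intro s
    induction s with
    | leaf m' =>
      intro ht hs _ n G
      have h1 : Forces U n G fun H => ∀ y ∈ H, n ≤ y →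
          ∀ a, a ∈ val (f y) H (y + 1) → a ∉ val (.leaf m') H (y + 1) := by
        refine Forces.always (O := fun _ y H =>
          ∀ a, a ∈ val (f y) H (y + 1) → a ∉ val (.leaf m') H (y + 1)) fun G' => ?_
        exact (ht.2 (.leaf m')).mono fun y hy => ihf y _ (ht.1 y) hs hy _ _
      refine h1.mono fun H _ _ hH a h2 h3 => ?_
      obtain ⟨x, hx, hn, h2⟩ := mem_val_node.1 h2
      exact hH x hx hn a h2 (mem_val_leaf.2 (mem_val_leaf.1 h3))
    | node g ihg =>
      intro ht hs hne n G
      have hfg : ∀ᶠ y in (U : Filter ℕ), ¬ Eqv U (f y) (g y) := Ultrafilter.eventually_not.2 hne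
      have h1 : Forces U n G fun H => ∀ y ∈ H, n ≤ y →
          ((∀ a, a ∈ val (f y) H (y + 1) → a ∉ val (g y) H (y + 1)) ∧
          (∀ a, a ∈ val (f y) H (y + 1) → a ∉ val (.node g) H (y + 1))) ∧
          (∀ a, a ∈ val (.node f) H (y + 1) → a ∉ val (g y) H (y + 1)) := by
        refine Forces.always (O := fun _ y H =>
          ((∀ a, a ∈ val (f y) H (y + 1) → a ∉ val (g y) H (y + 1)) ∧
          (∀ a, a ∈ val (f y) H (y + 1) → a ∉ val (.node g) H (y + 1))) ∧
          (∀ a, a ∈ val (.node f) H (y + 1) → a ∉ val (g y) H (y + 1))) fun G' => ?_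
        filter_upwards [hfg, ht.2 (.node g), hs.2 (.node f)] with y h1 h2 h3
        exact ((ihf y _ (ht.1 y) (hs.1 y) h1 _ _).and (ihf y _ (ht.1 y) hs h2 _ _)).and
          (ihg y ht (hs.1 y) (fun h => h3 h.symm) _ _)
      refine h1.mono fun H _ _ hH a h2 h3 => ?_
      obtain ⟨x, hx, hnx, h2⟩ := mem_val_node.1 h2
      obtain ⟨y, hy, hny, h3⟩ := mem_val_node.1 h3
      rcases lt_trichotomy x y with hxy | rfl | hxy
      · exact (hH x hx hnx).1.2 a h2 (mem_val_node.2 ⟨y, hy, hxy, h3⟩)
      · exact (hH x hx hnx).1.1 a h2 h3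
      · exact (hH y hy hny).2 a (mem_val_node.2 ⟨x, hx, hxy, h2⟩) h3

/-- A weak form of idempotency of a nonprincipal ultrafilter. -/
def Idem (p : Ultrafilter ℕ) : Prop :=
  (∀ a : ℕ, ({a} : Set ℕ) ∉ p) ∧ ∀ A ∈ p, ∃ m, m ≠ 0 ∧ {x | m + x ∈ A} ∈ p

theorem ip_free (t : Tm) : Red U t → ∀ (n : ℕ) (G : Finset ℕ),
    Forces U n G fun H => ∀ p, Idem p → ∀ a, {x | a + x ∈ val t H n} ∉ p := by
  induction t with
  | leaf m =>
    intro _ n G
    refine Forces.of_forall fun H _ _ p hp a h => hp.1 (m - a) (mem_of_superset h fun x hx => ?_)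
    have : a + x = m := (mem_val_leaf (H := H) (n := n)).1 hx
    change x = m - a
    omega
  | node f ih =>
    intro ht n G
    have h1 : Forces U n G fun H => ∀ y ∈ H, n ≤ y →
        (∀ p, Idem p → ∀ a, {x | a + x ∈ val (f y) H (y + 1)} ∉ p) ∧
        ∀ m ∈ (Finset.range (y + 1)).erase 0,
          ∀ a, a ∈ val (shift m (.node f)) H (y + 1) → a ∉ val (.node f) H (y + 1) := by
      refine Forces.always (O := fun _ y H =>
        (∀ p, Idem p → ∀ a, {x | a + x ∈ val (f y) H (y + 1)} ∉ p) ∧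
        ∀ m ∈ (Finset.range (y + 1)).erase 0,
          ∀ a, a ∈ val (shift m (.node f)) H (y + 1) → a ∉ val (.node f) H (y + 1)) fun G' => ?_
      refine Eventually.of_forall fun y => (ih y (ht.1 y) _ _).and ?_
      refine Forces.finset _ fun m hm => ?_
      exact disj_val _ _ (red_shift ht) ht (not_eqv_shift (Finset.ne_of_mem_erase hm) _) _ _
    refine h1.mono fun H hH _ h2 p hp a ha => ?_
    have key : ∀ b, {x | b + x ∈ val (.node f) H n} ∈ p →
        ∀ k, {x | b + x ∈ val (.node f) H (n + k)} ∈ p := by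
      intro b hb k
      induction k with
      | zero => exact hb
      | succ k ihk =>
        by_cases hk : n + k ∈ H
        · have h3 := (h2 _ hk (Nat.le_add_right _ _)).1 p hp b
          have h4 := Ultrafilter.compl_mem_iff_notMem.2 h3
          filter_upwards [ihk, h4] with x hx1 hx2
          obtain ⟨y, hy, hny, hx⟩ := mem_val_node.1 hx1
          refine mem_val_node.2 ⟨y, hy, ?_, hx⟩
          rcases eq_or_lt_of_le hny with h5 | h5
          · subst h5
            exact absurd hx hx2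
          · omega
        · filter_upwards [ihk] with x hx1
          obtain ⟨y, hy, hny, hx⟩ := mem_val_node.1 hx1
          refine mem_val_node.2 ⟨y, hy, ?_, hx⟩
          rcases eq_or_lt_of_le hny with h5 | h5
          · subst h5
            exact absurd hy hk
          · omega
    obtain ⟨m, hm0, hm⟩ := hp.2 _ ha
    have hm' : {x | (a + m) + x ∈ val (.node f) H n} ∈ p := by
      filter_upwards [hm] with x hx
      rw [add_assoc]
      exact hx
    obtain ⟨y, hy, hy2⟩ := hH.exists_gt (n + m)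
    have e1 : n + (y + 1 - n) = y + 1 := by omega
    have k1 := key a ha (y + 1 - n)
    have k2 := key (a + m) hm' (y + 1 - n)
    rw [e1] at k1 k2
    obtain ⟨x, hx1, hx2⟩ := Ultrafilter.nonempty_of_mem (inter_mem k1 k2)
    refine (h2 y hy (by omega)).2 m ?_ (m + (a + x)) (mem_val_shift hx1) ?_
    · exact Finset.mem_erase.2 ⟨hm0, Finset.mem_range.2 (by omega)⟩
    · have e2 : m + (a + x) = a + m + x := by omega
      rw [e2]
      exact hx2

end Pool.Agent.H679Z
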